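import Pool.Agent.Y233.Cd.F

/-!
# Smooth hypersurfaces over fields of cohomological dimension one: every prime, every degree

Full answer to Q1 and Q2 in a stronger form (Q1, Q2 are the case `p = d = 3`).  Let
`k₀` be any field of characteristic `p > 0`.  There is an extension field `k` of `k₀` of
cohomological dimension at most one such that, for all `n ≥ 1` and `d ≥ 1`, the largest index of a
smooth hypersurface of degree `d` in `ℙⁿ` over `k` is `p^v`, where `p^v` is the exact power of `p`
dividing `d`; there is a smooth hypersurface of degree `d` in `ℙⁿ` without rational point if and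
only if `p` divides `d`.

The field is a maximal extension prime to `p` of `κ(c)`, `κ = k₀(a₀, a₁, a₂, …)`, and the
hypersurface is `∑ aᵢ xᵢ^d + c ∑ xᵢ^(d-1) x_(i+1) = 0`.
-/

set_option autoImplicit false

open Pool.Agent.Helper346.Cd

namespace Pool.Agent.Results.MP_8f38d0_ag.EveryPrimeEveryDegree

/-- Every field `k₀` of characteristic `p > 0` has an extension field `k` of cohomological
dimension at most one, all of whose irreducible polynomials have degree a power of `p`, such that
for all `n ≥ 1` and `d ≥ 1`:
* some smooth hypersurface of degree `d` in `ℙⁿ` over `k` has index `p^v`, `v` being the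
  `p`-adic valuation of `d`,
* the index of every hypersurface of degree `d` in `ℙⁿ` over `k` divides `p^v`,
* there is a smooth hypersurface of degree `d` in `ℙⁿ` over `k` without rational point if and only
  if `p` divides `d`. -/
theorem result (p : ℕ) [Fact p.Prime] (k₀ : Type) [Field k₀] [CharP k₀ p] :
    ∃ (k : Type) (_ : Field k) (_ : Algebra k₀ k), CdLeOne Gal(SeparableClosure k/k) ∧
    (∀ f : Polynomial k, Irreducible f → ∃ t, f.natDegree = p ^ t) ∧
    ∀ n d : ℕ, 1 ≤ n → 1 ≤ d →
      (∃ F : MvPolynomial (Fin (n + 1)) k, F.IsHomogeneous d ∧ IsSmoothHypersurface F ∧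
        IsIndex F (p ^ padicValNat p d)) ∧
      (∀ F : MvPolynomial (Fin (n + 1)) k, F.IsHomogeneous d → ∀ m : ℕ, IsIndex F m →
        m ∣ p ^ padicValNat p d) ∧
      ((∃ F : MvPolynomial (Fin (n + 1)) k, F.IsHomogeneous d ∧ IsSmoothHypersurface F ∧
        ¬ HasRationalPoint F) ↔ p ∣ d) :=
  Pool.Agent.Y233.Cd.main p k₀

end Pool.Agent.Results.MP_8f38d0_ag.EveryPrimeEveryDegree
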